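import Mathlib

set_option autoImplicit false

/-!
# MP_d7f0d3_co: `n` points which determine at most `C(n-2, 2) + 6` horocycles

`n` points on one horocycle determine `C(n, 2) + 1` horocycles. We give a configuration which
determines fewer for all `n ≥ 5`: in the upper half-plane take `x1 = i`, `x9 = 9 i` and, on the
horocycle `im z = 5`, the `N = n - 2` points `a_k = 2 c_k + 5 i`, `k < N`, where
`c_k = (-1)^k L_(2k+1)` is (up to the sign) a Lucas number: `c_0 = 1`, `c_1 = -4`,
`c_(k+2) = -3 c_(k+1) - c_k`. By the identity `c_k² + 3 c_k c_(k+1) + c_(k+1)² = 5` the second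
horocycle through `a_k`, `a_(k+1)` contains `x1`, and the second horocycle through `a_k`, `a_(k+2)`, and
the one through `a_0`, `a_1`, contain `x9`. So both horocycles through `x1` (or `x9`) and `a_k` pass through
two of the `a_j`, with four exceptions.

Credit: helper99.
-/

namespace Pool.Agent.Results.MP_d7f0d3_co.LucasConfiguration

open Finset UpperHalfPlane
open scoped Classical

/-- The horocycle whose centre is the ideal point `ξ ∈ ℝ`, with Euclidean radius `r`. -/
def horo (ξ r : ℝ) : Set ℍ := {z | (z.re - ξ) ^ 2 + (z.im - r) ^ 2 = r ^ 2}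

/-- The horocycle of height `c` whose centre is the ideal point `∞`. -/
def horoInf (c : ℝ) : Set ℍ := {z | z.im = c}

/-- The horocycles of the hyperbolic plane. -/
def IsHorocycle (C : Set ℍ) : Prop :=
  (∃ ξ r : ℝ, 0 < r ∧ C = horo ξ r) ∨ ∃ c : ℝ, 0 < c ∧ C = horoInf c

/-- The horocycles that contain at least two points of `P`. -/
def determined (P : Finset ℍ) : Set (Set ℍ) :=
  {C | IsHorocycle C ∧ ∃ p ∈ P, ∃ q ∈ P, p ≠ q ∧ p ∈ C ∧ q ∈ C}

/-- The least number of horocycles determined by `n` points. -/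
noncomputable def m (n : ℕ) : ℕ :=
  sInf {k : ℕ | ∃ P : Finset ℍ, P.card = n ∧ (determined P).Finite ∧ (determined P).ncard = k}

/-- the numbers `(-1)^k L_(2k+1)` -/
noncomputable def c : ℕ → ℝ
  | 0 => 1
  | 1 => -4
  | k + 2 => -3 * c (k + 1) - c k

theorem c0 : c 0 = 1 := by rw [c]
theorem c1 : c 1 = -4 := by rw [c]
theorem c2 (k : ℕ) : c (k + 2) = -3 * c (k + 1) - c k := by rw [c]

theorem inv (k : ℕ) : c k ^ 2 + 3 * c k * c (k + 1) + c (k + 1) ^ 2 = 5 := by
  induction k with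
  | zero => rw [c0, c1]; norm_num
  | succ k ih => rw [c2]; linarith

theorem sgn (k : ℕ) : 0 < (-1 : ℝ) ^ k * c k ∧ (-1 : ℝ) ^ k * c k < (-1 : ℝ) ^ (k + 1) * c (k + 1) := by
  induction k with
  | zero => rw [c0, c1]; norm_num
  | succ k ih =>
    refine ⟨ih.1.trans ih.2, ?_⟩
    rw [c2]
    have e : (-1 : ℝ) ^ (k + 1 + 1) * (-3 * c (k + 1) - c k) =
        3 * ((-1 : ℝ) ^ (k + 1) * c (k + 1)) - (-1 : ℝ) ^ k * c k := by
      rw [pow_succ, pow_succ]; ring
    rw [e]
    linarith [ih.1, ih.2]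

theorem c_inj : Function.Injective c := by
  have hmono : StrictMono fun k : ℕ => (-1 : ℝ) ^ k * c k := strictMono_nat_of_lt_succ fun k => (sgn k).2
  have habs : ∀ k, |c k| = (-1 : ℝ) ^ k * c k := by
    intro k
    rw [← abs_of_pos (sgn k).1, abs_mul, abs_pow, abs_neg, abs_one, one_pow, one_mul]
  intro i j h
  apply hmono.injective
  simp only
  rw [← habs, ← habs, h]

/-- a point of the upper half-plane -/
noncomputable def mkP (x y : ℝ) (hy : 0 < y) : ℍ := ⟨⟨x, y⟩, hy⟩

/-- the point `a_k` -/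
noncomputable def a (k : ℕ) : ℍ := mkP (2 * c k) 5 (by norm_num)
/-- the point `i` -/
noncomputable def x1 : ℍ := mkP 0 1 one_pos
/-- the point `9 i` -/
noncomputable def x9 : ℍ := mkP 0 9 (by norm_num)

theorem a_re (k : ℕ) : (a k).re = 2 * c k := rfl
theorem a_im (k : ℕ) : (a k).im = 5 := rfl
theorem x1_re : x1.re = 0 := rfl
theorem x1_im : x1.im = 1 := rfl
theorem x9_re : x9.re = 0 := rfl
theorem x9_im : x9.im = 9 := rfl

theorem a_inj : Function.Injective a := by
  intro i j h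
  have h1 : (a i).re = (a j).re := by rw [h]
  rw [a_re, a_re] at h1
  exact c_inj (by linarith)

/-- the configuration -/
noncomputable def Q (N : ℕ) : Finset ℍ := (range N).image a ∪ {x1, x9}

theorem Q_card (N : ℕ) : (Q N).card = N + 2 := by
  unfold Q
  rw [card_union_of_disjoint, card_image_of_injective _ a_inj, card_range, card_pair]
  · intro h
    have h1 : x1.im = x9.im := by rw [h]
    rw [x1_im, x9_im] at h1
    norm_num at h1
  · rw [disjoint_left]
    intro z hz hz'
    obtain ⟨k, _, rfl⟩ := mem_image.1 hz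
    rw [mem_insert, mem_singleton] at hz'
    rcases hz' with h | h
    · have h1 : (a k).im = x1.im := by rw [h]
      rw [a_im, x1_im] at h1
      norm_num at h1
    · have h1 : (a k).im = x9.im := by rw [h]
      rw [a_im, x9_im] at h1
      norm_num at h1

theorem mem_Q {N : ℕ} {z : ℍ} : z ∈ Q N ↔ (∃ k < N, z = a k) ∨ z = x1 ∨ z = x9 := by
  unfold Q
  rw [mem_union, mem_image, mem_insert, mem_singleton]
  constructor
  · rintro (⟨k, hk, rfl⟩ | h)
    · exact Or.inl ⟨k, mem_range.1 hk, rfl⟩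
    · exact Or.inr h
  · rintro (⟨k, hk, rfl⟩ | h)
    · exact Or.inl ⟨k, mem_range.2 hk, rfl⟩
    · exact Or.inr h

theorem on_a {ξ r : ℝ} {k : ℕ} : a k ∈ horo ξ r ↔ (2 * c k - ξ) ^ 2 + 25 = 10 * r := by
  show ((a k).re - ξ) ^ 2 + ((a k).im - r) ^ 2 = r ^ 2 ↔ _
  rw [a_re, a_im]
  constructor <;> intro h <;> nlinarith

theorem on_x1 {ξ r : ℝ} : x1 ∈ horo ξ r ↔ ξ ^ 2 + 1 = 2 * r := by
  show (x1.re - ξ) ^ 2 + (x1.im - r) ^ 2 = r ^ 2 ↔ _
  rw [x1_re, x1_im]
  constructor <;> intro h <;> nlinarith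

theorem on_x9 {ξ r : ℝ} : x9 ∈ horo ξ r ↔ ξ ^ 2 + 81 = 18 * r := by
  show (x9.re - ξ) ^ 2 + (x9.im - r) ^ 2 = r ^ 2 ↔ _
  rw [x9_re, x9_im]
  constructor <;> intro h <;> nlinarith

/-- the second horocycle through `a_i` and `a_j` -/
noncomputable def Hp (i j : ℕ) : Set ℍ := horo (c i + c j) (((c i - c j) ^ 2 + 25) / 10)

/-- the list of horocycles -/
noncomputable def T (N : ℕ) : Finset (Set ℍ) :=
  insert (horoInf 5) (((range N).sigma fun j => range j).image fun p => Hp p.2 p.1) ∪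
    {horo 2 (5 / 2), horo (c (N - 1) + c N) (((c (N - 1) + c N) ^ 2 + 1) / 2),
      horo (-3 * c (N - 1)) (((-3 * c (N - 1)) ^ 2 + 81) / 18),
      horo (-3 * c N) (((-3 * c N) ^ 2 + 81) / 18), horo 3 5}

theorem T_card (N : ℕ) : (T N).card ≤ N.choose 2 + 6 := by
  unfold T
  have h1 : (((range N).sigma fun j => range j).image fun p : (_ : ℕ) × ℕ => Hp p.2 p.1).card ≤
      N.choose 2 := by
    refine card_image_le.trans (le_of_eq ?_)
    rw [card_sigma]
    simp only [card_range]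
    rw [Finset.sum_range_id, Nat.choose_two_right]
  have h2 := card_insert_le (horoInf 5)
    (((range N).sigma fun j => range j).image fun p : (_ : ℕ) × ℕ => Hp p.2 p.1)
  refine (card_union_le _ _).trans ?_
  have h3 : ({horo 2 (5 / 2), horo (c (N - 1) + c N) (((c (N - 1) + c N) ^ 2 + 1) / 2),
      horo (-3 * c (N - 1)) (((-3 * c (N - 1)) ^ 2 + 81) / 18),
      horo (-3 * c N) (((-3 * c N) ^ 2 + 81) / 18), horo 3 5} : Finset (Set ℍ)).card ≤ 5 :=
    card_le_five
  omega

theorem pair_mem {N i j : ℕ} (hi : i < N) (hj : j < N) (hij : i ≠ j) : Hp i j ∈ T N := by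
  have hs : Hp i j = Hp j i := by
    unfold Hp
    rw [add_comm, show (c i - c j) ^ 2 = (c j - c i) ^ 2 by ring]
  unfold T
  rw [mem_union, mem_insert, mem_image]
  rcases lt_or_gt_of_ne hij with h | h
  · exact Or.inl (Or.inr ⟨⟨j, i⟩, by simp [mem_sigma, hj, h], rfl⟩)
  · exact Or.inl (Or.inr ⟨⟨i, j⟩, by simp [mem_sigma, hi, h], hs.symm⟩)

/-- the horocycles through `x1` -/
theorem mem_x1 {N : ℕ} {j : ℕ} (hj : j < N) {ξ r : ℝ} (hξ : ξ = c j + c (j + 1)) (hr : ξ ^ 2 + 1 = 2 * r) :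
    horo ξ r ∈ T N := by
  rcases Nat.lt_or_ge (j + 1) N with h | h
  · have e : horo ξ r = Hp j (j + 1) := by
      unfold Hp
      have hi := inv j
      have hr' : r = ((c j - c (j + 1)) ^ 2 + 25) / 10 := by
        have : r = (ξ ^ 2 + 1) / 2 := by linarith
        rw [this, hξ]
        linarith
      rw [hr', hξ]
    rw [e]
    exact pair_mem hj h (by omega)
  · have hjN : j = N - 1 := by omega
    have hN : j + 1 = N := by omega
    unfold T
    rw [mem_union]
    right
    rw [mem_insert, mem_insert]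
    right; left
    rw [← hjN, ← hN]
    have : r = (ξ ^ 2 + 1) / 2 := by linarith
    rw [this, hξ]

/-- the horocycles through `x9` -/
theorem mem_x9 {N : ℕ} (hN2 : 2 ≤ N) {j : ℕ} (hj : j ≤ N) {ξ r : ℝ} (hξ : ξ = -3 * c j)
    (hr : ξ ^ 2 + 81 = 18 * r) : horo ξ r ∈ T N := by
  have hr' : r = (ξ ^ 2 + 81) / 18 := by linarith
  rcases Nat.eq_zero_or_pos j with h0 | h0
  · have e : horo ξ r = Hp 0 1 := by
      unfold Hp
      rw [hr', hξ, h0, c0, c1]
      norm_num
    rw [e]
    exact pair_mem (by omega) (by omega) (by omega)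
  · obtain ⟨i, rfl⟩ : ∃ i, j = i + 1 := ⟨j - 1, by omega⟩
    rcases Nat.lt_or_ge (i + 2) N with h | h
    · have e : horo ξ r = Hp i (i + 2) := by
        unfold Hp
        have hi := inv i
        have e1 : ξ = c i + c (i + 2) := by rw [hξ, c2]; ring
        have e2 : r = ((c i - c (i + 2)) ^ 2 + 25) / 10 := by
          rw [hr', hξ, c2]
          linarith
        rw [e2, ← e1]
      rw [e]
      exact pair_mem (by omega) h (by omega)
    · unfold T
      rw [mem_union]
      right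
      rcases Nat.eq_or_lt_of_le hj with h1 | h1
      · have : horo ξ r = horo (-3 * c N) (((-3 * c N) ^ 2 + 81) / 18) := by
          rw [hr', hξ, h1]
        rw [this]
        simp
      · have h2 : i + 1 = N - 1 := by omega
        have : horo ξ r = horo (-3 * c (N - 1)) (((-3 * c (N - 1)) ^ 2 + 81) / 18) := by
          rw [hr', hξ, h2]
        rw [this]
        simp

theorem case_ax1 {N k : ℕ} (hk : k < N) {ξ r : ℝ} (h1 : (2 * c k - ξ) ^ 2 + 25 = 10 * r)
    (h2 : ξ ^ 2 + 1 = 2 * r) : horo ξ r ∈ T N := by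
  rcases Nat.eq_zero_or_pos k with h0 | h0
  · subst h0
    rw [c0] at h1
    have h3 : (ξ - 2) * (ξ + 3) = 0 := by nlinarith
    rcases mul_eq_zero.1 h3 with h4 | h4
    · have e1 : ξ = 2 := by linarith
      have e2 : r = 5 / 2 := by rw [e1] at h2; linarith
      rw [e1, e2]
      unfold T
      simp
    · refine mem_x1 (j := 0) hk ?_ h2
      rw [zero_add, c0, c1]
      linarith
  · obtain ⟨i, rfl⟩ : ∃ i, k = i + 1 := ⟨k - 1, by omega⟩
    have hi := inv i
    have h3 : (ξ - (c i + c (i + 1))) * (ξ - (c (i + 1) + c (i + 2))) = 0 := by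
      rw [c2]
      nlinarith
    rcases mul_eq_zero.1 h3 with h4 | h4
    · exact mem_x1 (j := i) (by omega) (by linarith) h2
    · exact mem_x1 (j := i + 1) hk (by linarith) h2

theorem case_ax9 {N k : ℕ} (hN2 : 2 ≤ N) (hk : k < N) {ξ r : ℝ}
    (h1 : (2 * c k - ξ) ^ 2 + 25 = 10 * r) (h2 : ξ ^ 2 + 81 = 18 * r) : horo ξ r ∈ T N := by
  rcases Nat.eq_zero_or_pos k with h0 | h0
  · subst h0
    rw [c0] at h1
    have h3 : (ξ - 12) * (ξ + 3) = 0 := by nlinarith
    rcases mul_eq_zero.1 h3 with h4 | h4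
    · refine mem_x9 hN2 (j := 1) (by omega) ?_ h2
      rw [c1]; linarith
    · refine mem_x9 hN2 (j := 0) (by omega) ?_ h2
      rw [c0]; linarith
  · obtain ⟨i, rfl⟩ : ∃ i, k = i + 1 := ⟨k - 1, by omega⟩
    have hi := inv i
    have h3 : (ξ - (-3 * c i)) * (ξ - (-3 * c (i + 2))) = 0 := by
      rw [c2]
      nlinarith
    rcases mul_eq_zero.1 h3 with h4 | h4
    · exact mem_x9 hN2 (j := i) (by omega) (by linarith) h2
    · exact mem_x9 hN2 (j := i + 2) (by omega) (by linarith) h2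

theorem case_xx {N : ℕ} (hN2 : 2 ≤ N) {ξ r : ℝ} (h1 : ξ ^ 2 + 1 = 2 * r)
    (h2 : ξ ^ 2 + 81 = 18 * r) : horo ξ r ∈ T N := by
  have h3 : (ξ - 3) * (ξ + 3) = 0 := by nlinarith
  rcases mul_eq_zero.1 h3 with h4 | h4
  · have e1 : ξ = 3 := by linarith
    have e2 : r = 5 := by linarith
    rw [e1, e2]
    unfold T
    simp
  · exact mem_x9 hN2 (j := 0) (by omega) (by rw [c0]; linarith) h2

theorem det_sub (N : ℕ) (hN2 : 2 ≤ N) : determined (Q N) ⊆ (T N : Set (Set ℍ)) := by
  rintro C ⟨hC, p, hp, q, hq, hpq, hpC, hqC⟩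
  rw [mem_coe]
  rcases hC with ⟨ξ, r, hr, rfl⟩ | ⟨h, hh, rfl⟩
  · rcases mem_Q.1 hp with ⟨i, hi, rfl⟩ | rfl | rfl <;>
      rcases mem_Q.1 hq with ⟨j, hj, rfl⟩ | rfl | rfl
    · have hij : i ≠ j := fun h => hpq (by rw [h])
      have h1 := on_a.1 hpC
      have h2 := on_a.1 hqC
      have h3 : (c i - c j) * (c i + c j - ξ) = 0 := by nlinarith
      rcases mul_eq_zero.1 h3 with h4 | h4
      · exact absurd (c_inj (by linarith)) hij
      · have e1 : ξ = c i + c j := by linarith
        have e2 : r = ((c i - c j) ^ 2 + 25) / 10 := by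
          rw [e1] at h1
          linarith
        rw [e1, e2]
        exact pair_mem hi hj hij
    · exact case_ax1 hi (on_a.1 hpC) (on_x1.1 hqC)
    · exact case_ax9 hN2 hi (on_a.1 hpC) (on_x9.1 hqC)
    · exact case_ax1 hj (on_a.1 hqC) (on_x1.1 hpC)
    · exact absurd rfl hpq
    · exact case_xx hN2 (on_x1.1 hpC) (on_x9.1 hqC)
    · exact case_ax9 hN2 hj (on_a.1 hqC) (on_x9.1 hpC)
    · exact case_xx hN2 (on_x1.1 hqC) (on_x9.1 hpC)
    · exact absurd rfl hpq
  · have h1 : p.im = h := hpC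
    have h2 : q.im = h := hqC
    have h5 : h = 5 := by
      rcases mem_Q.1 hp with ⟨i, hi, rfl⟩ | rfl | rfl
      · rw [a_im] at h1; exact h1.symm
      · rcases mem_Q.1 hq with ⟨j, hj, rfl⟩ | rfl | rfl
        · rw [a_im] at h2; exact h2.symm
        · exact absurd rfl hpq
        · rw [x1_im] at h1; rw [x9_im] at h2; linarith
      · rcases mem_Q.1 hq with ⟨j, hj, rfl⟩ | rfl | rfl
        · rw [a_im] at h2; exact h2.symm
        · rw [x9_im] at h1; rw [x1_im] at h2; linarith
        · exact absurd rfl hpq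
    rw [h5]
    unfold T
    simp

/-- For every `n ≥ 4` there are `n` points of the hyperbolic plane which determine at most
`C(n-2, 2) + 6` horocycles; in consequence `m n ≤ C(n-2, 2) + 6`. -/
theorem result : ∀ n : ℕ, 4 ≤ n →
    (∃ P : Finset ℍ, P.card = n ∧ (determined P).Finite ∧
      (determined P).ncard ≤ (n - 2).choose 2 + 6) ∧
    m n ≤ (n - 2).choose 2 + 6 := by
  intro n hn
  obtain ⟨N, rfl⟩ : ∃ N, n = N + 2 := ⟨n - 2, by omega⟩
  have hsub := det_sub N (by omega)
  have hfin : (determined (Q N)).Finite := (T N).finite_toSet.subset hsub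
  have h1 : m (N + 2) ≤ (determined (Q N)).ncard :=
    Nat.sInf_le ⟨Q N, Q_card N, hfin, rfl⟩
  have h2 : (determined (Q N)).ncard ≤ (T N).card := by
    rw [← Set.ncard_coe_finset]
    exact Set.ncard_le_ncard hsub (T N).finite_toSet
  rw [Nat.add_sub_cancel]
  have h3 := h2.trans (T_card N)
  exact ⟨⟨Q N, Q_card N, hfin, h3⟩, h1.trans h3⟩

end Pool.Agent.Results.MP_d7f0d3_co.LucasConfiguration
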