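import Pool.Agent.Results.MP_d7f0d3_co.LucasConfiguration
import Pool.Agent.Results.MP_d7f0d3_co.QuadraticGrowth

set_option autoImplicit false

/-!
# MP_d7f0d3_co: the exact minimum if at least `n - 1` of the points are on a horocycle

`m n` is the minimum number of horocycles determined by `n` points of the hyperbolic plane
(`LucasConfiguration.lean`). For every `n ≥ 3` the `n`-point sets with at least `n - 1` points on one
horocycle determine at least `C(n-1, 2) + 3` horocycles, and this is attained.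

Proof of the lower bound. An isometry (a translation, and `z ↦ -1/z`) takes the horocycle to
`im = h`. Its points `p + u + h i`, `u ∈ U`, give `C(n-1, 2)` horocycles through two of them which
are circles, and the line `im = h`. If the remaining point `p + q i` has `q ≠ h`, the horocycles through
it and the point `p + u + h i` have the centres `p + w`, with `w` one of the two roots `w1 u ≠ w2 u` of
`(h - q) w² + 2 q u w - q u² - h q (h - q) = 0`. Each `w` belongs to one or two `u ∈ U`; let `E` be the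
set of those which belong to one. Counting the pairs `(u, w)` in two ways, `|E|` is even. `E` is not
empty: else take `u ∈ U` with `|u|` maximal; its roots belong to further elements `u', u''` of `U`
with `(h - q) (u' + u'') = -2 (h + q) u`, and `|h - q| < h + q` (`par`). So at least two of the
horocycles through `p + q i` have just one point in the row, and there are at least `C(n-1, 2) + 3`
horocycles. If `q = h`, all `n` points are on the line, which gives `C(n, 2) + 1 ≥ C(n-1, 2) + 3`.

The bound is attained by `i` and the points `2 c k + 5 i`, `k < n - 1`, of `LucasConfiguration.lean`.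

The theorems `m3` (`m 3 = 4`) and `m4` (`m 4 = 6`) are for `SmallValues.lean`: for `n = 3` two of the
points are on a common horocycle, so the bound applies; for `n = 4` it applies if three of the points are
on a horocycle, and if not, the six pairs are on different horocycles.

Credit: helper99.
-/

namespace Pool.Agent.Results.MP_d7f0d3_co.NearHorocycle

open Finset UpperHalfPlane
open Pool.Agent.Results.MP_d7f0d3_co.LucasConfiguration
open scoped Classical

theorem det_fin (P : Finset ℍ) : (determined P).Finite :=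
  Pool.Agent.Results.MP_d7f0d3_co.QuadraticGrowth.determined_finite P

theorem on_horo {ξ r : ℝ} {z : ℍ} : z ∈ horo ξ r ↔ (z.re - ξ) ^ 2 + z.im ^ 2 = 2 * r * z.im := by
  show (z.re - ξ) ^ 2 + (z.im - r) ^ 2 = r ^ 2 ↔ _
  constructor <;> intro h <;> nlinarith

theorem on_inf {h : ℝ} {z : ℍ} : z ∈ horoInf h ↔ z.im = h := Iff.rfl

theorem mk_re (x y : ℝ) (hy : 0 < y) : (mkP x y hy).re = x := rfl
theorem mk_im (x y : ℝ) (hy : 0 < y) : (mkP x y hy).im = y := rfl

theorem mk_eq {z : ℍ} {x y : ℝ} (hy : 0 < y) (h1 : z.re = x) (h2 : z.im = y) : z = mkP x y hy :=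
  UpperHalfPlane.ext_re_im h1 h2

/-! ### the parity argument -/

/-- the horocycle with centre `p + w` through `(p, q)` contains `(p + u, h)` -/
def Fz (h q u w : ℝ) : Prop := (h - q) * w ^ 2 + 2 * q * u * w - q * u ^ 2 - h * q * (h - q) = 0

section
variable {h q : ℝ}

noncomputable def DD (h q u : ℝ) : ℝ := Real.sqrt (h * q * (u ^ 2 + (h - q) ^ 2))
noncomputable def w1 (h q u : ℝ) : ℝ := (-q * u + DD h q u) / (h - q)
noncomputable def w2 (h q u : ℝ) : ℝ := (-q * u - DD h q u) / (h - q)

theorem DD_pos (hh : 0 < h) (hq : 0 < q) (hne : h ≠ q) (u : ℝ) : 0 < DD h q u := by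
  unfold DD
  apply Real.sqrt_pos.2
  have : 0 < (h - q) ^ 2 := by
    have : h - q ≠ 0 := sub_ne_zero.2 hne
    positivity
  positivity

theorem F_iff (hh : 0 < h) (hq : 0 < q) (hne : h ≠ q) (u w : ℝ) :
    Fz h q u w ↔ w = w1 h q u ∨ w = w2 h q u := by
  have hs : h - q ≠ 0 := sub_ne_zero.2 hne
  have hD : DD h q u ^ 2 = h * q * (u ^ 2 + (h - q) ^ 2) := by
    unfold DD
    exact Real.sq_sqrt (by positivity)
  have key : Fz h q u w ↔ ((h - q) * w + q * u - DD h q u) * ((h - q) * w + q * u + DD h q u) = 0 := by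
    have e : ((h - q) * w + q * u - DD h q u) * ((h - q) * w + q * u + DD h q u) =
        (h - q) * ((h - q) * w ^ 2 + 2 * q * u * w - q * u ^ 2 - h * q * (h - q)) := by
      have : ((h - q) * w + q * u - DD h q u) * ((h - q) * w + q * u + DD h q u) =
        ((h - q) * w + q * u) ^ 2 - DD h q u ^ 2 := by ring
      rw [this, hD]
      ring
    rw [e]
    unfold Fz
    constructor
    · intro h1; rw [h1, mul_zero]
    · intro h1
      exact (mul_eq_zero.1 h1).resolve_left hs
  rw [key, mul_eq_zero]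
  unfold w1 w2
  rw [eq_div_iff hs, eq_div_iff hs]
  constructor
  · rintro (h1 | h1)
    · left; linarith
    · right; linarith
  · rintro (h1 | h1)
    · left; linarith
    · right; linarith

theorem w_ne (hh : 0 < h) (hq : 0 < q) (hne : h ≠ q) (u : ℝ) : w1 h q u ≠ w2 h q u := by
  have hs : h - q ≠ 0 := sub_ne_zero.2 hne
  have := DD_pos hh hq hne u
  unfold w1 w2
  intro h1
  rw [div_left_inj' hs] at h1
  linarith

theorem w_add (hne : h ≠ q) (u : ℝ) : (h - q) * (w1 h q u + w2 h q u) = -2 * q * u := by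
  have hs : h - q ≠ 0 := sub_ne_zero.2 hne
  unfold w1 w2
  field_simp
  ring

theorem two_roots (hq : 0 < q) {u u' w : ℝ} (h1 : Fz h q u w) (h2 : Fz h q u' w) (hu : u' ≠ u) :
    u' = 2 * w - u := by
  unfold Fz at h1 h2
  have h3 : q * ((u' - u) * (2 * w - u - u')) = 0 := by linarith
  rcases mul_eq_zero.1 h3 with h4 | h4
  · exact absurd h4 hq.ne'
  · rcases mul_eq_zero.1 h4 with h5 | h5
    · exact absurd (by linarith) hu
    · linarith

theorem par (hh : 0 < h) (hq : 0 < q) (hne : h ≠ q) (U : Finset ℝ) (hU : U.Nonempty) :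
    ∃ E : Finset ℝ, 2 ≤ E.card ∧ ∀ w ∈ E, (U.filter (fun u => Fz h q u w)).card = 1 := by
  set W : Finset ℝ := U.biUnion (fun u => {w1 h q u, w2 h q u}) with hW
  have hW1 : ∀ w ∈ W, 1 ≤ (U.filter (fun u => Fz h q u w)).card := by
    intro w hw
    rw [hW, mem_biUnion] at hw
    obtain ⟨u, hu, hw⟩ := hw
    rw [mem_insert, mem_singleton] at hw
    exact card_pos.2 ⟨u, mem_filter.2 ⟨hu, (F_iff hh hq hne u w).2 hw⟩⟩
  have hW2 : ∀ w ∈ W, (U.filter (fun u => Fz h q u w)).card ≤ 2 := by
    intro w hw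
    obtain ⟨u, hu⟩ := card_pos.1 (hW1 w hw)
    rw [mem_filter] at hu
    have : U.filter (fun u => Fz h q u w) ⊆ {u, 2 * w - u} := by
      intro u' hu'
      rw [mem_filter] at hu'
      rw [mem_insert, mem_singleton]
      by_cases h1 : u' = u
      · exact Or.inl h1
      · exact Or.inr (two_roots hq hu.2 hu'.2 h1)
    exact (card_le_card this).trans card_le_two
  have hsum : ∑ w ∈ W, (U.filter (fun u => Fz h q u w)).card = 2 * U.card := by
    have h1 := Finset.sum_card_bipartiteAbove_eq_sum_card_bipartiteBelow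
      (s := W) (t := U) (r := fun w u => Fz h q u w)
    unfold bipartiteAbove bipartiteBelow at h1
    rw [h1]
    have h2 : ∀ u ∈ U, (W.filter (fun w => Fz h q u w)).card = 2 := by
      intro u hu
      have : W.filter (fun w => Fz h q u w) = {w1 h q u, w2 h q u} := by
        ext w
        rw [mem_filter, F_iff hh hq hne, mem_insert, mem_singleton]
        constructor
        · exact fun h => h.2
        · intro h
          refine ⟨?_, h⟩
          rw [hW, mem_biUnion]
          exact ⟨u, hu, by rw [mem_insert, mem_singleton]; exact h⟩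
      rw [this, card_pair (w_ne hh hq hne u)]
    rw [sum_congr rfl h2, sum_const, smul_eq_mul, mul_comm]
  set E : Finset ℝ := W.filter (fun w => (U.filter (fun u => Fz h q u w)).card = 1) with hE
  refine ⟨E, ?_, fun w hw => (mem_filter.1 hw).2⟩
  have hsplit : E.card + 2 * (W.filter (fun w => ¬ (U.filter (fun u => Fz h q u w)).card = 1)).card =
      2 * U.card := by
    rw [← hsum, ← sum_filter_add_sum_filter_not W
      (fun w => (U.filter (fun u => Fz h q u w)).card = 1)]
    congr 1
    · rw [sum_congr rfl (g := fun _ => 1)]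
      · simp [hE]
      · intro w hw
        exact (mem_filter.1 hw).2
    · rw [sum_congr rfl (g := fun _ => 2)]
      · rw [sum_const, smul_eq_mul, mul_comm]
      · intro w hw
        rw [mem_filter] at hw
        have := hW1 w hw.1
        have := hW2 w hw.1
        omega
  have hE0 : E.card ≠ 0 := by
    intro h0
    rw [card_eq_zero] at h0
    obtain ⟨u0, hu0, hmax⟩ := U.exists_max_image (fun u => |u|) hU
    have hpart : ∀ w, Fz h q u0 w → ∃ u' ∈ U, u' ≠ u0 ∧ u' = 2 * w - u0 := by
      intro w hw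
      have hwW : w ∈ W := by
        rw [hW, mem_biUnion]
        refine ⟨u0, hu0, ?_⟩
        rw [mem_insert, mem_singleton]
        exact (F_iff hh hq hne u0 w).1 hw
      have h1 : (U.filter (fun u => Fz h q u w)).card ≠ 1 := by
        intro h2
        have : w ∈ E := mem_filter.2 ⟨hwW, h2⟩
        rw [h0] at this
        exact absurd this (notMem_empty w)
      have h2 := hW1 w hwW
      have h3 : 1 < (U.filter (fun u => Fz h q u w)).card := by omega
      obtain ⟨u', hu', hne'⟩ := exists_mem_ne h3 u0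
      rw [mem_filter] at hu'
      exact ⟨u', hu'.1, hne', two_roots hq hw hu'.2 hne'⟩
    obtain ⟨u', hu', hn', he'⟩ := hpart (w1 h q u0) ((F_iff hh hq hne _ _).2 (Or.inl rfl))
    obtain ⟨u'', hu'', hn'', he''⟩ := hpart (w2 h q u0) ((F_iff hh hq hne _ _).2 (Or.inr rfl))
    have hm' := hmax u' hu'
    have hm'' := hmax u'' hu''
    have hs : (h - q) * (u' + u'') = -2 * u0 * (h + q) := by
      have := w_add hne u0
      rw [he', he'']
      linarith
    have habs : |h - q| * |u' + u''| = 2 * |u0| * (h + q) := by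
      rw [← abs_mul, hs, abs_mul, abs_mul, abs_of_pos (show 0 < h + q by linarith)]
      norm_num
    have hle : |u' + u''| ≤ 2 * |u0| := (abs_add_le u' u'').trans (by linarith)
    have hlt : |h - q| < h + q := by
      rw [abs_lt]
      constructor <;> linarith
    have hu0p : 0 < |u0| := by
      rcases (abs_nonneg u0).eq_or_lt with h5 | h5
      · exfalso
        rw [← h5] at hm'
        have h6 : u' = 0 := abs_eq_zero.1 (le_antisymm hm' (abs_nonneg _))
        have h7 : u0 = 0 := abs_eq_zero.1 h5.symm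
        exact hn' (by rw [h6, h7])
      · exact h5
    have h8 : |h - q| * |u' + u''| ≤ |h - q| * (2 * |u0|) :=
      mul_le_mul_of_nonneg_left hle (abs_nonneg _)
    have h9 : |h - q| * (2 * |u0|) < (h + q) * (2 * |u0|) :=
      mul_lt_mul_of_pos_right hlt (by linarith)
    linarith
  omega

end

/-! ### normalised configurations -/

/-- the parameters of the points of the row on `C` -/
noncomputable def Ph (p h : ℝ) (hh : 0 < h) (U : Finset ℝ) (C : Set ℍ) : Finset ℝ :=
  U.filter fun u => mkP (p + u) h hh ∈ C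

theorem row_on {p h : ℝ} (hh : 0 < h) {u v r : ℝ} :
    mkP (p + u) h hh ∈ horo (p + v) r ↔ (u - v) ^ 2 + h ^ 2 = 2 * r * h := by
  rw [on_horo, mk_re, mk_im, show p + u - (p + v) = u - v by ring]

theorem horo_ne_inf (ξ r h : ℝ) (hr : 0 < r) (hh : 0 < h) : horo ξ r ≠ horoInf h := by
  intro he
  have h1 : mkP (ξ + r + 1) h hh ∈ horoInf h := rfl
  rw [← he, on_horo, mk_re, mk_im] at h1
  nlinarith [sq_nonneg (h - r)]

theorem mk_ne {p h : ℝ} (hh : 0 < h) {u v : ℝ} (huv : u ≠ v) : mkP (p + u) h hh ≠ mkP (p + v) h hh := by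
  intro he
  have h1 : (mkP (p + u) h hh).re = (mkP (p + v) h hh).re := by rw [he]
  rw [mk_re, mk_re] at h1
  exact huv (by linarith)

theorem base {p h : ℝ} (hh : 0 < h) (U : Finset ℝ) (hU : 2 ≤ U.card) (P : Finset ℍ)
    (hUP : ∀ u ∈ U, mkP (p + u) h hh ∈ P) (E : Finset (Set ℍ))
    (hE : ∀ C ∈ E, C ∈ determined P ∧ C ≠ horoInf h ∧ (Ph p h hh U C).card = 1) :
    U.card.choose 2 + 1 + E.card ≤ (determined P).ncard := by
  set D := (det_fin P).toFinset with hD
  have hmem : ∀ C, C ∈ D ↔ C ∈ determined P := fun C => Set.Finite.mem_toFinset _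
  set A2 := D.filter (fun C => C ≠ horoInf h ∧ (Ph p h hh U C).card = 2) with hA2
  have h2 : U.card.choose 2 ≤ A2.card := by
    rw [← card_powersetCard 2 U]
    refine le_trans (card_le_card ?_) (card_image_le (f := Ph p h hh U) (s := A2))
    intro s hs
    rw [mem_powersetCard, card_eq_two] at hs
    obtain ⟨hsU, u, v, huv, rfl⟩ := hs
    have hu : u ∈ U := hsU (by simp)
    have hv : v ∈ U := hsU (by simp)
    rw [mem_image]
    have hr : 0 < (((u - v) ^ 2 / 4 + h ^ 2) / (2 * h)) := by positivity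
    have e1 : 2 * (((u - v) ^ 2 / 4 + h ^ 2) / (2 * h)) * h = (u - v) ^ 2 / 4 + h ^ 2 := by
      field_simp
    have hPh : Ph p h hh U (horo (p + (u + v) / 2) (((u - v) ^ 2 / 4 + h ^ 2) / (2 * h))) = {u, v} := by
      ext t
      unfold Ph
      rw [mem_filter, row_on, e1, mem_insert, mem_singleton]
      constructor
      · rintro ⟨_, ht⟩
        have h5 : (t - u) * (t - v) = 0 := by nlinarith
        rcases mul_eq_zero.1 h5 with h6 | h6
        · left; linarith
        · right; linarith
      · rintro (rfl | rfl)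
        · exact ⟨hu, by ring⟩
        · exact ⟨hv, by ring⟩
    refine ⟨horo (p + (u + v) / 2) (((u - v) ^ 2 / 4 + h ^ 2) / (2 * h)), ?_, hPh⟩
    rw [hA2, mem_filter, hmem]
    refine ⟨⟨Or.inl ⟨_, _, hr, rfl⟩, _, hUP u hu, _, hUP v hv, mk_ne hh huv, ?_, ?_⟩,
      horo_ne_inf _ _ _ hr hh, ?_⟩
    · rw [row_on, e1]; ring
    · rw [row_on, e1]; ring
    · rw [hPh]; exact card_pair huv
  have hsub : insert (horoInf h) (A2 ∪ E) ⊆ D := by
    intro C hC
    rw [mem_insert, mem_union] at hC
    rcases hC with rfl | hC | hC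
    · rw [hmem]
      obtain ⟨u, hu, v, hv, huv⟩ := one_lt_card.1 (show 1 < U.card by omega)
      exact ⟨Or.inr ⟨h, hh, rfl⟩, _, hUP u hu, _, hUP v hv, mk_ne hh huv, rfl, rfl⟩
    · exact (mem_filter.1 hC).1
    · rw [hmem]; exact (hE C hC).1
  have hcard : (insert (horoInf h) (A2 ∪ E)).card = A2.card + E.card + 1 := by
    rw [card_insert_of_notMem, card_union_of_disjoint]
    · rw [disjoint_left]
      intro C h1 h3
      have h5 := (mem_filter.1 h1).2.2
      have h6 := (hE C h3).2.2
      omega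
    · rw [mem_union]
      rintro (h1 | h1)
      · exact (mem_filter.1 h1).2.1 rfl
      · exact (hE _ h1).2.1 rfl
  have h3 := card_le_card hsub
  rw [hcard] at h3
  rw [Set.ncard_eq_toFinset_card _ (det_fin P), ← hD]
  omega

theorem low1 {p q h : ℝ} (hq : 0 < q) (hh : 0 < h) (hne : h ≠ q) (U : Finset ℝ) (hU : 2 ≤ U.card)
    (P : Finset ℍ) (hx : mkP p q hq ∈ P) (hUP : ∀ u ∈ U, mkP (p + u) h hh ∈ P) :
    U.card.choose 2 + 3 ≤ (determined P).ncard := by
  obtain ⟨E, hE2, hE⟩ := par hh hq hne U (card_pos.1 (by omega))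
  set g : ℝ → Set ℍ := fun w => horo (p + w) ((w ^ 2 + q ^ 2) / (2 * q)) with hg
  have hr : ∀ w : ℝ, 0 < (w ^ 2 + q ^ 2) / (2 * q) := fun w => by positivity
  have hxg : ∀ w, mkP p q hq ∈ g w := by
    intro w
    rw [hg]
    simp only
    rw [on_horo, mk_re, mk_im]
    field_simp
    ring
  have hPh : ∀ w, Ph p h hh U (g w) = U.filter (fun u => Fz h q u w) := by
    intro w
    unfold Ph
    refine filter_congr fun u _ => ?_
    rw [hg]
    simp only
    rw [row_on]
    unfold Fz
    have e : 2 * ((w ^ 2 + q ^ 2) / (2 * q)) * h = (w ^ 2 + q ^ 2) * h / q := by field_simp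
    rw [e, eq_div_iff hq.ne']
    constructor <;> intro h1 <;> linarith
  have hginj : Set.InjOn g (E : Set ℝ) := by
    intro w _ w' _ he
    have h1 : mkP (p + w) (2 * ((w ^ 2 + q ^ 2) / (2 * q))) (by have := hr w; linarith) ∈ g w := by
      rw [hg]
      simp only
      rw [on_horo, mk_re, mk_im]
      ring
    have h2 : mkP (p + w') (2 * ((w' ^ 2 + q ^ 2) / (2 * q))) (by have := hr w'; linarith) ∈ g w' := by
      rw [hg]
      simp only
      rw [on_horo, mk_re, mk_im]
      ring
    rw [he] at h1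
    rw [← he] at h2
    rw [hg] at h1 h2
    simp only at h1 h2
    rw [on_horo, mk_re, mk_im] at h1 h2
    obtain ⟨r, hrr⟩ : ∃ r, r = (w ^ 2 + q ^ 2) / (2 * q) := ⟨_, rfl⟩
    obtain ⟨r', hrr'⟩ : ∃ r', r' = (w' ^ 2 + q ^ 2) / (2 * q) := ⟨_, rfl⟩
    rw [← hrr, ← hrr'] at h1 h2
    have h3 : (w - w') ^ 2 = 4 * r * (r' - r) := by
      have : p + w - (p + w') = w - w' := by ring
      rw [this] at h1
      linarith
    have h4 : (w - w') ^ 2 = 4 * r' * (r - r') := by
      have : p + w' - (p + w) = -(w - w') := by ring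
      rw [this, neg_sq] at h2
      linarith
    have hrp : 0 < r := by rw [hrr]; exact hr w
    have hrp' : 0 < r' := by rw [hrr']; exact hr w'
    have h5 : (r - r') * (r + r') = 0 := by linarith
    have h6 : r = r' := by
      rcases mul_eq_zero.1 h5 with h7 | h7 <;> linarith
    rw [h6] at h3
    have h7 : (w - w') ^ 2 = 0 := by rw [h3]; ring
    have := pow_eq_zero_iff (two_ne_zero) |>.1 h7
    linarith
  have hb := base hh U hU P hUP (E.image g) (by
    intro C hC
    obtain ⟨w, hw, rfl⟩ := mem_image.1 hC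
    have h1 := hE w hw
    have h2 := hPh w
    refine ⟨?_, horo_ne_inf _ _ _ (hr w) hh, by rw [h2]; exact h1⟩
    obtain ⟨u, hu⟩ := card_pos.1 (show 0 < (U.filter (fun u => Fz h q u w)).card by omega)
    rw [← h2] at hu
    unfold Ph at hu
    rw [mem_filter] at hu
    refine ⟨Or.inl ⟨_, _, hr w, rfl⟩, _, hx, _, hUP u hu.1, ?_, hxg w, hu.2⟩
    intro he
    have h5 : (mkP p q hq).im = (mkP (p + u) h hh).im := by rw [he]
    rw [mk_im, mk_im] at h5
    exact hne h5.symm)
  rw [card_image_of_injOn hginj] at hb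
  omega

/-! ### isometries -/

theorem good_le (f : ℍ → ℍ) (hf : Function.Bijective f) (hC : ∀ C, IsHorocycle C → IsHorocycle (f ⁻¹' C))
    (P : Finset ℍ) : (determined (P.image f)).ncard ≤ (determined P).ncard := by
  refine Set.ncard_le_ncard_of_injOn (fun C => f ⁻¹' C) ?_ ?_ (det_fin P)
  · rintro C ⟨h1, p', hp', q', hq', hne, hpC, hqC⟩
    obtain ⟨p, hp, rfl⟩ := mem_image.1 hp'
    obtain ⟨q, hq, rfl⟩ := mem_image.1 hq'
    exact ⟨hC C h1, p, hp, q, hq, fun he => hne (by rw [he]), hpC, hqC⟩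
  · intro C _ C' _ he
    exact hf.2.preimage_injective he

/-- the translation by `-ξ` -/
noncomputable def tr (ξ : ℝ) (z : ℍ) : ℍ := mkP (z.re - ξ) z.im z.im_pos

theorem dpos (z : ℍ) : 0 < z.re ^ 2 + z.im ^ 2 := by
  have := z.im_pos
  positivity

/-- the inversion `z ↦ -1/z` -/
noncomputable def iv (z : ℍ) : ℍ :=
  mkP (-z.re / (z.re ^ 2 + z.im ^ 2)) (z.im / (z.re ^ 2 + z.im ^ 2)) (div_pos z.im_pos (dpos z))

theorem tr_re (ξ : ℝ) (z : ℍ) : (tr ξ z).re = z.re - ξ := rfl
theorem tr_im (ξ : ℝ) (z : ℍ) : (tr ξ z).im = z.im := rfl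
theorem iv_re (z : ℍ) : (iv z).re = -z.re / (z.re ^ 2 + z.im ^ 2) := rfl
theorem iv_im (z : ℍ) : (iv z).im = z.im / (z.re ^ 2 + z.im ^ 2) := rfl

theorem tr_bij (ξ : ℝ) : Function.Bijective (tr ξ) := by
  refine Function.bijective_iff_has_inverse.2 ⟨tr (-ξ), fun z => ?_, fun z => ?_⟩
  · refine UpperHalfPlane.ext_re_im ?_ rfl
    rw [tr_re, tr_re]; ring
  · refine UpperHalfPlane.ext_re_im ?_ rfl
    rw [tr_re, tr_re]; ring

theorem iv_iv (z : ℍ) : iv (iv z) = z := by
  have hd := (dpos z).ne'
  have e : (iv z).re ^ 2 + (iv z).im ^ 2 = 1 / (z.re ^ 2 + z.im ^ 2) := by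
    rw [iv_re, iv_im]
    field_simp
  refine UpperHalfPlane.ext_re_im ?_ ?_
  · rw [iv_re (iv z), e, iv_re]
    field_simp
  · rw [iv_im (iv z), e, iv_im]
    field_simp

theorem iv_bij : Function.Bijective iv :=
  Function.bijective_iff_has_inverse.2 ⟨iv, iv_iv, iv_iv⟩

theorem tr_good (ξ : ℝ) (C : Set ℍ) (hC : IsHorocycle C) : IsHorocycle (tr ξ ⁻¹' C) := by
  rcases hC with ⟨η, r, hr, rfl⟩ | ⟨h, hh, rfl⟩
  · left
    refine ⟨η + ξ, r, hr, ?_⟩
    ext z
    rw [Set.mem_preimage, on_horo, on_horo, tr_re, tr_im, show z.re - ξ - η = z.re - (η + ξ) by ring]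
  · exact Or.inr ⟨h, hh, rfl⟩

theorem iv_good (C : Set ℍ) (hC : IsHorocycle C) : IsHorocycle (iv ⁻¹' C) := by
  rcases hC with ⟨η, r, hr, rfl⟩ | ⟨h, hh, rfl⟩
  · rcases eq_or_ne η 0 with h0 | h0
    · right
      refine ⟨1 / (2 * r), by positivity, ?_⟩
      ext z
      have hd := dpos z
      rw [Set.mem_preimage, on_horo, iv_re, iv_im, h0, on_inf]
      have e1 : (-z.re / (z.re ^ 2 + z.im ^ 2) - 0) ^ 2 + (z.im / (z.re ^ 2 + z.im ^ 2)) ^ 2 =
          1 / (z.re ^ 2 + z.im ^ 2) := by
        have := hd.ne'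
        field_simp
        ring
      rw [e1, mul_div_assoc', div_left_inj' hd.ne', eq_div_iff (by positivity)]
      constructor <;> intro h1 <;> linarith
    · left
      refine ⟨-1 / η, r / η ^ 2, by positivity, ?_⟩
      ext z
      have hd := dpos z
      rw [Set.mem_preimage, on_horo, iv_re, iv_im, on_horo]
      have e1 : (-z.re / (z.re ^ 2 + z.im ^ 2) - η) ^ 2 + (z.im / (z.re ^ 2 + z.im ^ 2)) ^ 2 =
          (1 + 2 * η * z.re + η ^ 2 * (z.re ^ 2 + z.im ^ 2)) / (z.re ^ 2 + z.im ^ 2) := by
        have := hd.ne'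
        field_simp
        ring
      have e2 : (z.re - -1 / η) ^ 2 + z.im ^ 2 =
          (1 + 2 * η * z.re + η ^ 2 * (z.re ^ 2 + z.im ^ 2)) / η ^ 2 := by
        field_simp
        ring
      have e3 : 2 * (r / η ^ 2) * z.im = (2 * r * z.im) / η ^ 2 := by ring
      rw [e1, e2, e3, mul_div_assoc', div_left_inj' hd.ne',
        div_left_inj' (pow_ne_zero 2 h0)]
  · left
    refine ⟨0, 1 / (2 * h), by positivity, ?_⟩
    ext z
    have hd := dpos z
    rw [Set.mem_preimage, on_inf, iv_im, on_horo, div_eq_iff hd.ne']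
    have e3 : 2 * (1 / (2 * h)) * z.im = z.im / h := by field_simp
    rw [e3, eq_div_iff hh.ne']
    constructor <;> intro h1 <;> linarith

theorem good_exists (C : Set ℍ) (hC : IsHorocycle C) : ∃ f : ℍ → ℍ, Function.Bijective f ∧
    (∀ C', IsHorocycle C' → IsHorocycle (f ⁻¹' C')) ∧ ∃ h : ℝ, 0 < h ∧ ∀ z ∈ C, (f z).im = h := by
  rcases hC with ⟨ξ, r, hr, rfl⟩ | ⟨h, hh, rfl⟩
  · refine ⟨iv ∘ tr ξ, iv_bij.comp (tr_bij ξ), fun C' hC' => ?_, 1 / (2 * r), by positivity, ?_⟩
    · rw [Set.preimage_comp]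
      exact tr_good ξ _ (iv_good _ hC')
    · intro z hz
      rw [on_horo] at hz
      show (iv (tr ξ z)).im = _
      rw [iv_im, tr_re, tr_im, hz, div_eq_div_iff (by have := z.im_pos; positivity) (by positivity)]
      ring
  · exact ⟨id, Function.bijective_id, fun C' hC' => hC', h, hh, fun z hz => hz⟩

/-! ### the lower bound -/

theorem lower {n : ℕ} (hn : 3 ≤ n) (P : Finset ℍ) (hP : P.card = n) (C : Set ℍ) (hC : IsHorocycle C)
    (hcard : n ≤ (P.filter (fun z => z ∈ C)).card + 1) :
    (n - 1).choose 2 + 3 ≤ (determined P).ncard := by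
  obtain ⟨f, hf, hgood, h, hh, hfC⟩ := good_exists C hC
  refine le_trans ?_ (good_le f hf hgood P)
  set P' := P.image f with hP'
  have hP'c : P'.card = n := by rw [hP', card_image_of_injective _ hf.1, hP]
  set S := P'.filter (fun z => z.im = h) with hS
  have hSc : n ≤ S.card + 1 := by
    have : (P.filter (fun z => z ∈ C)).card ≤ S.card := by
      rw [← card_image_of_injective _ hf.1]
      apply card_le_card
      intro z' hz'
      obtain ⟨z, hz, rfl⟩ := mem_image.1 hz'
      rw [mem_filter] at hz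
      rw [hS, mem_filter]
      exact ⟨mem_image_of_mem f hz.1, hfC z hz.2⟩
    omega
  by_cases hall : ∃ x ∈ P', x.im ≠ h
  · obtain ⟨x, hx, hxh⟩ := hall
    have hSlt : S.card < n := by
      rw [← hP'c]
      apply card_lt_card
      rw [hS, filter_ssubset]
      exact ⟨x, hx, hxh⟩
    have hS1 : S.card = n - 1 := by omega
    set U := S.image (fun z => z.re - x.re) with hU
    have hUc : U.card = n - 1 := by
      rw [hU, card_image_of_injOn, hS1]
      intro z hz w hw he
      rw [mem_coe, hS, mem_filter] at hz hw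
      simp only at he
      exact UpperHalfPlane.ext_re_im (by linarith) (by rw [hz.2, hw.2])
    have hl := low1 (p := x.re) (q := x.im) (h := h) x.im_pos hh (Ne.symm hxh) U (by omega) P'
      (by
        have : x = mkP x.re x.im x.im_pos := mk_eq _ rfl rfl
        rw [← this]; exact hx)
      (by
        intro u hu
        obtain ⟨z, hz, rfl⟩ := mem_image.1 hu
        rw [hS, mem_filter] at hz
        have : z = mkP (x.re + (z.re - x.re)) h hh := mk_eq _ (by ring) hz.2
        rw [← this]; exact hz.1)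
    rw [hUc] at hl
    exact hl
  · push Not at hall
    set U := P'.image (fun z => z.re) with hU
    have hUc : U.card = n := by
      rw [hU, card_image_of_injOn, hP'c]
      intro z hz w hw he
      simp only at he
      exact UpperHalfPlane.ext_re_im he (by rw [hall z hz, hall w hw])
    have hl := base (p := 0) hh U (by omega) P' (by
        intro u hu
        obtain ⟨z, hz, rfl⟩ := mem_image.1 hu
        have : z = mkP (0 + z.re) h hh := mk_eq _ (by ring) (hall z hz)
        rw [← this]; exact hz) ∅ (by intro C hC; exact absurd hC (notMem_empty C))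
    rw [hUc, card_empty] at hl
    refine le_trans ?_ hl
    obtain ⟨k, rfl⟩ : ∃ k, n = k + 1 := ⟨n - 1, by omega⟩
    have : (k + 1).choose 2 = k.choose 1 + k.choose 2 := Nat.choose_succ_succ k 1
    rw [this, Nat.choose_one_right, Nat.add_sub_cancel]
    omega

/-- two points are on a common horocycle -/
theorem exists_common (z w : ℍ) : ∃ C, IsHorocycle C ∧ z ∈ C ∧ w ∈ C := by
  by_cases him : z.im = w.im
  · exact ⟨horoInf w.im, Or.inr ⟨_, w.im_pos, rfl⟩, him, rfl⟩
  · have hF := (F_iff w.im_pos z.im_pos (Ne.symm him) (w.re - z.re)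
      (w1 w.im z.im (w.re - z.re))).2 (Or.inl rfl)
    obtain ⟨t, ht⟩ : ∃ t, t = w1 w.im z.im (w.re - z.re) := ⟨_, rfl⟩
    rw [← ht] at hF
    have hz := z.im_pos
    have hw := w.im_pos
    refine ⟨horo (z.re + t) ((t ^ 2 + z.im ^ 2) / (2 * z.im)), Or.inl ⟨_, _, by positivity, rfl⟩, ?_, ?_⟩
    · rw [on_horo]
      field_simp
      ring
    · rw [on_horo]
      unfold Fz at hF
      have e : 2 * ((t ^ 2 + z.im ^ 2) / (2 * z.im)) * w.im = (t ^ 2 + z.im ^ 2) * w.im / z.im := by
        field_simp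
      rw [e, eq_div_iff hz.ne']
      nlinarith

/-! ### the configuration -/

/-- `N` of the Lucas points on the horocycle `im z = 5`, and the point `i` -/
noncomputable def Q1 (N : ℕ) : Finset ℍ := insert x1 ((range N).image a)

theorem mem_Q1 {N : ℕ} {z : ℍ} : z ∈ Q1 N ↔ (∃ k < N, z = a k) ∨ z = x1 := by
  unfold Q1
  rw [mem_insert, mem_image]
  constructor
  · rintro (h | ⟨k, hk, rfl⟩)
    · exact Or.inr h
    · exact Or.inl ⟨k, mem_range.1 hk, rfl⟩
  · rintro (⟨k, hk, rfl⟩ | h)
    · exact Or.inr ⟨k, mem_range.2 hk, rfl⟩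
    · exact Or.inl h

theorem Q1_card (N : ℕ) : (Q1 N).card = N + 1 := by
  unfold Q1
  rw [card_insert_of_notMem, card_image_of_injective _ a_inj, card_range]
  intro hz
  obtain ⟨k, _, h⟩ := mem_image.1 hz
  have h1 : (a k).im = x1.im := by rw [h]
  rw [a_im, x1_im] at h1
  norm_num at h1

theorem Q1_filter (N : ℕ) : N ≤ ((Q1 N).filter (fun z => z ∈ horoInf 5)).card := by
  have h1 : ((range N).image a).card = N := by
    rw [card_image_of_injective _ a_inj, card_range]
  calc N = ((range N).image a).card := h1.symm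
    _ ≤ _ := by
      apply card_le_card
      intro z hz
      rw [mem_filter]
      refine ⟨mem_insert_of_mem hz, ?_⟩
      obtain ⟨k, _, rfl⟩ := mem_image.1 hz
      rfl

/-- the list of horocycles -/
noncomputable def T1 (N : ℕ) : Finset (Set ℍ) :=
  insert (horoInf 5) (((range N).sigma fun j => range j).image fun p => Hp p.2 p.1) ∪
    {horo 2 (5 / 2), horo (c (N - 1) + c N) (((c (N - 1) + c N) ^ 2 + 1) / 2)}

theorem T1_card (N : ℕ) : (T1 N).card ≤ N.choose 2 + 3 := by
  unfold T1
  have h1 : (((range N).sigma fun j => range j).image fun p : (_ : ℕ) × ℕ => Hp p.2 p.1).card ≤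
      N.choose 2 := by
    refine card_image_le.trans (le_of_eq ?_)
    rw [card_sigma]
    simp only [card_range]
    rw [Finset.sum_range_id, Nat.choose_two_right]
  have h2 := card_insert_le (horoInf 5)
    (((range N).sigma fun j => range j).image fun p : (_ : ℕ) × ℕ => Hp p.2 p.1)
  refine (card_union_le _ _).trans ?_
  have h3 : ({horo 2 (5 / 2), horo (c (N - 1) + c N) (((c (N - 1) + c N) ^ 2 + 1) / 2)} :
      Finset (Set ℍ)).card ≤ 2 := card_le_two
  omega

theorem pair_mem1 {N i j : ℕ} (hi : i < N) (hj : j < N) (hij : i ≠ j) : Hp i j ∈ T1 N := by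
  have hs : Hp i j = Hp j i := by
    unfold Hp
    rw [add_comm, show (c i - c j) ^ 2 = (c j - c i) ^ 2 by ring]
  unfold T1
  rw [mem_union, mem_insert, mem_image]
  rcases lt_or_gt_of_ne hij with h | h
  · exact Or.inl (Or.inr ⟨⟨j, i⟩, by simp [mem_sigma, hj, h], rfl⟩)
  · exact Or.inl (Or.inr ⟨⟨i, j⟩, by simp [mem_sigma, hi, h], hs.symm⟩)

theorem mem_x11 {N : ℕ} {j : ℕ} (hj : j < N) {ξ r : ℝ} (hξ : ξ = c j + c (j + 1)) (hr : ξ ^ 2 + 1 = 2 * r) :
    horo ξ r ∈ T1 N := by
  rcases Nat.lt_or_ge (j + 1) N with h | h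
  · have e : horo ξ r = Hp j (j + 1) := by
      unfold Hp
      have hi := inv j
      have hr' : r = ((c j - c (j + 1)) ^ 2 + 25) / 10 := by
        have : r = (ξ ^ 2 + 1) / 2 := by linarith
        rw [this, hξ]
        linarith
      rw [hr', hξ]
    rw [e]
    exact pair_mem1 hj h (by omega)
  · have hjN : j = N - 1 := by omega
    have hN : j + 1 = N := by omega
    unfold T1
    rw [mem_union]
    right
    rw [mem_insert, mem_singleton]
    right
    rw [← hjN, ← hN]
    have : r = (ξ ^ 2 + 1) / 2 := by linarith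
    rw [this, hξ]

theorem case_ax11 {N k : ℕ} (hk : k < N) {ξ r : ℝ} (h1 : (2 * c k - ξ) ^ 2 + 25 = 10 * r)
    (h2 : ξ ^ 2 + 1 = 2 * r) : horo ξ r ∈ T1 N := by
  rcases Nat.eq_zero_or_pos k with h0 | h0
  · subst h0
    rw [c0] at h1
    have h3 : (ξ - 2) * (ξ + 3) = 0 := by nlinarith
    rcases mul_eq_zero.1 h3 with h4 | h4
    · have e1 : ξ = 2 := by linarith
      have e2 : r = 5 / 2 := by rw [e1] at h2; linarith
      rw [e1, e2]
      unfold T1
      simp
    · refine mem_x11 (j := 0) hk ?_ h2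
      rw [zero_add, c0, c1]
      linarith
  · obtain ⟨i, rfl⟩ : ∃ i, k = i + 1 := ⟨k - 1, by omega⟩
    have hi := inv i
    have h3 : (ξ - (c i + c (i + 1))) * (ξ - (c (i + 1) + c (i + 2))) = 0 := by
      rw [c2]
      nlinarith
    rcases mul_eq_zero.1 h3 with h4 | h4
    · exact mem_x11 (j := i) (by omega) (by linarith) h2
    · exact mem_x11 (j := i + 1) hk (by linarith) h2

theorem det_sub1 (N : ℕ) : determined (Q1 N) ⊆ (T1 N : Set (Set ℍ)) := by
  rintro C ⟨hC, p, hp, q, hq, hpq, hpC, hqC⟩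
  rw [mem_coe]
  rcases hC with ⟨ξ, r, hr, rfl⟩ | ⟨h, hh, rfl⟩
  · rcases mem_Q1.1 hp with ⟨i, hi, rfl⟩ | rfl <;>
      rcases mem_Q1.1 hq with ⟨j, hj, rfl⟩ | rfl
    · have hij : i ≠ j := fun h => hpq (by rw [h])
      have h1 := on_a.1 hpC
      have h2 := on_a.1 hqC
      have h3 : (c i - c j) * (c i + c j - ξ) = 0 := by nlinarith
      rcases mul_eq_zero.1 h3 with h4 | h4
      · exact absurd (c_inj (by linarith)) hij
      · have e1 : ξ = c i + c j := by linarith
        have e2 : r = ((c i - c j) ^ 2 + 25) / 10 := by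
          rw [e1] at h1
          linarith
        rw [e1, e2]
        exact pair_mem1 hi hj hij
    · exact case_ax11 hi (on_a.1 hpC) (on_x1.1 hqC)
    · exact case_ax11 hj (on_a.1 hqC) (on_x1.1 hpC)
    · exact absurd rfl hpq
  · have h1 : p.im = h := hpC
    have h2 : q.im = h := hqC
    have h5 : h = 5 := by
      rcases mem_Q1.1 hp with ⟨i, hi, rfl⟩ | rfl
      · rw [a_im] at h1; exact h1.symm
      · rcases mem_Q1.1 hq with ⟨j, hj, rfl⟩ | rfl
        · rw [a_im] at h2; exact h2.symm
        · exact absurd rfl hpq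
    rw [h5]
    unfold T1
    simp

theorem upper (N : ℕ) : (determined (Q1 N)).ncard ≤ N.choose 2 + 3 := by
  refine le_trans ?_ (T1_card N)
  rw [← Set.ncard_coe_finset]
  exact Set.ncard_le_ncard (det_sub1 N) (T1 N).finite_toSet

/-! ### the results -/

/-- The numbers of horocycles determined by the `n`-point sets of which at least `n - 1` points are on
one horocycle. -/
def near (n : ℕ) : Set ℕ :=
  {k | ∃ P : Finset ℍ, P.card = n ∧ (∃ C, IsHorocycle C ∧ n ≤ (P.filter (fun z => z ∈ C)).card + 1) ∧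
    (determined P).Finite ∧ (determined P).ncard = k}

theorem near_least (n : ℕ) (hn : 3 ≤ n) : IsLeast (near n) ((n - 1).choose 2 + 3) := by
  constructor
  · obtain ⟨N, rfl⟩ : ∃ N, n = N + 1 := ⟨n - 1, by omega⟩
    have hf := Q1_filter N
    refine ⟨Q1 N, Q1_card N, ⟨horoInf 5, Or.inr ⟨5, by norm_num, rfl⟩, by omega⟩, det_fin _, ?_⟩
    exact le_antisymm (by simpa using upper N)
      (lower hn (Q1 N) (Q1_card N) (horoInf 5) (Or.inr ⟨5, by norm_num, rfl⟩) (by omega))
  · rintro k ⟨P, hP, ⟨C, hC, hcard⟩, _, rfl⟩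
    exact lower hn P hP C hC hcard

theorem m_le (n : ℕ) (hn : 3 ≤ n) : m n ≤ (n - 1).choose 2 + 3 := by
  obtain ⟨P, hP, _, hf, hk⟩ := (near_least n hn).1
  exact Nat.sInf_le ⟨P, hP, hf, hk⟩

theorem le_m {n k : ℕ} (h0 : ∃ P : Finset ℍ, P.card = n)
    (h : ∀ P : Finset ℍ, P.card = n → k ≤ (determined P).ncard) : k ≤ m n := by
  obtain ⟨P, hP⟩ := h0
  obtain ⟨Q, hQ, _, hk⟩ : m n ∈ {k : ℕ | ∃ P : Finset ℍ, P.card = n ∧ (determined P).Finite ∧
      (determined P).ncard = k} := Nat.sInf_mem ⟨_, P, hP, det_fin P, rfl⟩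
  rw [← hk]
  exact h Q hQ

theorem m3 : m 3 = 4 := by
  refine le_antisymm (by simpa using m_le 3 le_rfl) (le_m ⟨Q1 2, Q1_card 2⟩ fun P hP => ?_)
  obtain ⟨x, y, z, hxy, hxz, hyz, rfl⟩ := card_eq_three.1 hP
  obtain ⟨C, hC, hx, hy⟩ := exists_common x y
  have h1 := lower le_rfl _ hP C hC (by
    have : ({x, y} : Finset ℍ) ⊆ ({x, y, z} : Finset ℍ).filter (fun z => z ∈ C) := by
      intro t ht
      rw [mem_insert, mem_singleton] at ht
      rw [mem_filter]
      rcases ht with rfl | rfl
      · exact ⟨by simp, hx⟩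
      · exact ⟨by simp, hy⟩
    have h2 := card_le_card this
    rw [card_pair hxy] at h2
    omega)
  simpa using h1

theorem m4 : m 4 = 6 := by
  refine le_antisymm (by have := m_le 4 (by norm_num); norm_num [Nat.choose] at this ⊢; exact this)
    (le_m ⟨Q1 3, Q1_card 3⟩ fun P hP => ?_)
  by_cases h3 : ∃ C, IsHorocycle C ∧ 3 ≤ (P.filter (fun z => z ∈ C)).card
  · obtain ⟨C, hC, hc⟩ := h3
    have h1 := lower (by norm_num) P hP C hC (by omega)
    norm_num [Nat.choose] at h1
    exact h1
  · push Not at h3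
    -- each pair is on a horocycle which contains no further point
    have h1 : (P.powersetCard 2).card ≤ ((det_fin P).toFinset.image
        (fun C => P.filter (fun z => z ∈ C))).card := by
      apply card_le_card
      intro s hs
      rw [mem_powersetCard, card_eq_two] at hs
      obtain ⟨hsP, x, y, hxy, rfl⟩ := hs
      obtain ⟨C, hC, hx, hy⟩ := exists_common x y
      rw [mem_image]
      refine ⟨C, (Set.Finite.mem_toFinset _).2 ⟨hC, x, hsP (by simp), y, hsP (by simp), hxy, hx, hy⟩, ?_⟩
      symm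
      apply eq_of_subset_of_card_le
      · intro t ht
        rw [mem_filter]
        refine ⟨hsP ht, ?_⟩
        rw [mem_insert, mem_singleton] at ht
        rcases ht with rfl | rfl
        · exact hx
        · exact hy
      · rw [card_pair hxy]
        have := h3 C hC
        omega
    rw [card_powersetCard, hP] at h1
    have h2 := h1.trans card_image_le
    rw [← Set.ncard_eq_toFinset_card _ (det_fin P)] at h2
    norm_num [Nat.choose] at h2
    exact h2

/-- For every `n ≥ 3` the least number of horocycles determined by `n` points at least `n - 1` of which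
are on one horocycle is `C(n-1, 2) + 3`. -/
theorem result : ∀ n : ℕ, 3 ≤ n → IsLeast (near n) ((n - 1).choose 2 + 3) := near_least

end Pool.Agent.Results.MP_d7f0d3_co.NearHorocycle
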