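import Pool.Agent.Results.MP_d7f0d3_co.NearHorocycle

set_option autoImplicit false

/-!
# MP_d7f0d3_co: the exact values `m 3 = 4`, `m 4 = 6`, `m 5 = 8`

`m n` is the minimum number of horocycles determined by `n` points of the hyperbolic plane
(`LucasConfiguration.lean`).

`m 3` and `m 4` are at the end of `NearHorocycle.lean`. The value `m 5`:

Lower bound. If four of the five points are on a horocycle, they determine at least `C(4, 2) + 3 = 9`
horocycles (`NearHorocycle.lean`). If not, let `D` be the set of the horocycles which they determine.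
Each of them has two or three of the points, hence one or three of the ten pairs. Each pair is on exactly
two horocycles (`two`), so that `|D| + 2 G = 20`, `G ≤ |D|` the number of horocycles with three points.
So `|D|` is even and at least `7`.

Upper bound. Let `g = 2 + √5` and `x = √g`. The five points `i`, `g i`, `g² i`, `± 2 x + i` determine
eight horocycles: `im = 1` with the points `i, ± 2 x + i`; the circle with centre `0` and diameter
`g²` with `g² i, ± 2 x + i`; those with centres `± x` and diameter `g + 1` with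
`i, g i, ± 2 x + i`, with the sign of the centre (three points each); those with centres `± g x` and
diameter `g + g²` with `g i, g² i, ± 2 x + i` (three each); and those with centres `± g` and diameter
`1 + g²` with `i, g² i`.

Credit: helper99.
-/

namespace Pool.Agent.Results.MP_d7f0d3_co.SmallValues

open Finset UpperHalfPlane
open Pool.Agent.Results.MP_d7f0d3_co.LucasConfiguration
open Pool.Agent.Results.MP_d7f0d3_co.NearHorocycle
open scoped Classical

theorem horo_ne {ξ ξ' r r' : ℝ} (h1 : 0 < r) (h2 : 0 < r') (h : ξ ≠ ξ') : horo ξ r ≠ horo ξ' r' := by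
  intro he
  have h3 := Pool.Agent.Results.MP_d7f0d3_co.QuadraticGrowth.horo_inj (h := (ξ, r)) (h' := (ξ', r'))
    h1 h2 he
  exact h (congrArg Prod.fst h3)

/-- Two different points are on exactly two horocycles. -/
theorem two (z w : ℍ) (hzw : z ≠ w) : ∃ C1 C2 : Set ℍ, C1 ≠ C2 ∧
    ∀ C, (IsHorocycle C ∧ z ∈ C ∧ w ∈ C) ↔ (C = C1 ∨ C = C2) := by
  have hz := z.im_pos
  have hw := w.im_pos
  by_cases him : z.im = w.im
  · have hre : z.re ≠ w.re := fun h => hzw (UpperHalfPlane.ext_re_im h him)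
    have hr0 : 0 < ((z.re - (z.re + w.re) / 2) ^ 2 + z.im ^ 2) / (2 * z.im) := by positivity
    refine ⟨horoInf z.im, horo ((z.re + w.re) / 2)
      (((z.re - (z.re + w.re) / 2) ^ 2 + z.im ^ 2) / (2 * z.im)),
      (horo_ne_inf _ _ _ hr0 hz).symm, fun C => ⟨?_, ?_⟩⟩
    · rintro ⟨⟨ξ, r, hr, rfl⟩ | ⟨c, hc, rfl⟩, h1, h2⟩
      · right
        rw [on_horo] at h1 h2
        rw [← him] at h2
        have h3 : (z.re - w.re) * (z.re + w.re - 2 * ξ) = 0 := by nlinarith
        rcases mul_eq_zero.1 h3 with h4 | h4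
        · exact absurd (by linarith) hre
        · have h5 : ξ = (z.re + w.re) / 2 := by linarith
          subst h5
          congr 1
          rw [eq_div_iff (by positivity), h1]
          ring
      · left
        rw [on_inf] at h1
        rw [h1]
    · rintro (rfl | rfl)
      · exact ⟨Or.inr ⟨_, hz, rfl⟩, rfl, him.symm⟩
      · refine ⟨Or.inl ⟨_, _, hr0, rfl⟩, ?_, ?_⟩
        · rw [on_horo]
          field_simp
        · rw [on_horo, ← him]
          field_simp
          ring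
  · have hne : w.im ≠ z.im := Ne.symm him
    have hF := F_iff hw hz hne (w.re - z.re)
    have hmem : ∀ t, Fz w.im z.im (w.re - z.re) t →
        IsHorocycle (horo (z.re + t) ((t ^ 2 + z.im ^ 2) / (2 * z.im))) ∧
        z ∈ horo (z.re + t) ((t ^ 2 + z.im ^ 2) / (2 * z.im)) ∧
        w ∈ horo (z.re + t) ((t ^ 2 + z.im ^ 2) / (2 * z.im)) := by
      intro t ht
      refine ⟨Or.inl ⟨_, _, by positivity, rfl⟩, ?_, ?_⟩
      · rw [on_horo]
        field_simp
        ring
      · rw [on_horo]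
        unfold Fz at ht
        have e : 2 * ((t ^ 2 + z.im ^ 2) / (2 * z.im)) * w.im = (t ^ 2 + z.im ^ 2) * w.im / z.im := by
          field_simp
        rw [e, eq_div_iff hz.ne']
        nlinarith
    refine ⟨_, _, horo_ne (ξ := z.re + w1 w.im z.im (w.re - z.re))
      (ξ' := z.re + w2 w.im z.im (w.re - z.re))
      (r := ((w1 w.im z.im (w.re - z.re)) ^ 2 + z.im ^ 2) / (2 * z.im))
      (r' := ((w2 w.im z.im (w.re - z.re)) ^ 2 + z.im ^ 2) / (2 * z.im))
      (by positivity) (by positivity)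
      (fun h => w_ne hw hz hne (w.re - z.re) (by linarith)), fun C => ⟨?_, ?_⟩⟩
    · rintro ⟨⟨ξ, r, hr, rfl⟩ | ⟨c, hc, rfl⟩, h1, h2⟩
      · rw [on_horo] at h1 h2
        have h3 : Fz w.im z.im (w.re - z.re) (ξ - z.re) := by
          unfold Fz
          linear_combination w.im * h1 - z.im * h2
        have h4 : r = ((ξ - z.re) ^ 2 + z.im ^ 2) / (2 * z.im) := by
          rw [eq_div_iff (by positivity)]
          linarith
        rcases (hF (ξ - z.re)).1 h3 with h5 | h5
        · left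
          rw [← h5, ← h4]
          congr 1
          ring
        · right
          rw [← h5, ← h4]
          congr 1
          ring
      · rw [on_inf] at h1 h2
        exact absurd (h1.trans h2.symm) him
    · rintro (rfl | rfl)
      · exact hmem _ ((hF _).2 (Or.inl rfl))
      · exact hmem _ ((hF _).2 (Or.inr rfl))

theorem two_of {z w : ℍ} (hzw : z ≠ w) {A B : Set ℍ} (hAB : A ≠ B) (hA : IsHorocycle A)
    (hB : IsHorocycle B) (zA : z ∈ A) (wA : w ∈ A) (zB : z ∈ B) (wB : w ∈ B) {C : Set ℍ}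
    (hC : IsHorocycle C) (zC : z ∈ C) (wC : w ∈ C) : C = A ∨ C = B := by
  obtain ⟨C1, C2, _, h⟩ := two z w hzw
  have h1 := (h A).1 ⟨hA, zA, wA⟩
  have h2 := (h B).1 ⟨hB, zB, wB⟩
  have h3 := (h C).1 ⟨hC, zC, wC⟩
  rcases h1 with h1 | h1 <;> rcases h2 with h2 | h2 <;> rcases h3 with h3 | h3 <;>
    simp_all

theorem low5 (P : Finset ℍ) (hP : P.card = 5)
    (h3 : ∀ C, IsHorocycle C → (P.filter (fun z => z ∈ C)).card ≤ 3) : 8 ≤ (determined P).ncard := by
  set D := (det_fin P).toFinset with hD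
  rw [Set.ncard_eq_toFinset_card _ (det_fin P), ← hD]
  have hsum := Finset.sum_card_bipartiteAbove_eq_sum_card_bipartiteBelow
    (s := D) (t := P.powersetCard 2) (r := fun (C : Set ℍ) (s : Finset ℍ) => ∀ z ∈ s, z ∈ C)
  unfold bipartiteAbove bipartiteBelow at hsum
  have hR : ∑ s ∈ P.powersetCard 2, (D.filter (fun C => ∀ z ∈ s, z ∈ C)).card = 20 := by
    have h1 : ∀ s ∈ P.powersetCard 2, (D.filter (fun C => ∀ z ∈ s, z ∈ C)).card = 2 := by
      intro s hs
      rw [mem_powersetCard, card_eq_two] at hs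
      obtain ⟨hsP, x, y, hxy, rfl⟩ := hs
      obtain ⟨C1, C2, h12, h⟩ := two x y hxy
      have : D.filter (fun C => ∀ z ∈ ({x, y} : Finset ℍ), z ∈ C) = {C1, C2} := by
        ext C
        rw [mem_filter, mem_insert, mem_singleton, ← h C, hD, Set.Finite.mem_toFinset]
        constructor
        · rintro ⟨⟨hC, _⟩, h2⟩
          exact ⟨hC, h2 x (by simp), h2 y (by simp)⟩
        · rintro ⟨hC, hx, hy⟩
          refine ⟨⟨hC, x, hsP (by simp), y, hsP (by simp), hxy, hx, hy⟩, fun z hz => ?_⟩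
          rw [mem_insert, mem_singleton] at hz
          rcases hz with rfl | rfl
          · exact hx
          · exact hy
      rw [this, card_pair h12]
    rw [sum_congr rfl h1, sum_const, card_powersetCard, hP]
    rfl
  have hL : ∀ C ∈ D, ((P.powersetCard 2).filter (fun s => ∀ z ∈ s, z ∈ C)).card = 1 ∨
      ((P.powersetCard 2).filter (fun s => ∀ z ∈ s, z ∈ C)).card = 3 := by
    intro C hC
    rw [hD, Set.Finite.mem_toFinset] at hC
    obtain ⟨hC, x, hx, y, hy, hxy, hxC, hyC⟩ := hC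
    have e : (P.powersetCard 2).filter (fun s => ∀ z ∈ s, z ∈ C) =
        (P.filter (fun z => z ∈ C)).powersetCard 2 := by
      ext s
      rw [mem_filter, mem_powersetCard, mem_powersetCard]
      constructor
      · rintro ⟨⟨h1, h2⟩, h3⟩
        exact ⟨fun z hz => mem_filter.2 ⟨h1 hz, h3 z hz⟩, h2⟩
      · rintro ⟨h1, h2⟩
        exact ⟨⟨fun z hz => (mem_filter.1 (h1 hz)).1, h2⟩, fun z hz => (mem_filter.1 (h1 hz)).2⟩
    rw [e, card_powersetCard]
    have h4 := h3 C hC
    have h5 : 2 ≤ (P.filter (fun z => z ∈ C)).card := by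
      rw [← card_pair hxy]
      apply card_le_card
      intro z hz
      rw [mem_insert, mem_singleton] at hz
      rw [mem_filter]
      rcases hz with rfl | rfl
      · exact ⟨hx, hxC⟩
      · exact ⟨hy, hyC⟩
    interval_cases h6 : (P.filter (fun z => z ∈ C)).card
    · left; rfl
    · right; rfl
  rw [hR] at hsum
  have hS : ∃ G, G ≤ D.card ∧
      ∑ C ∈ D, ((P.powersetCard 2).filter (fun s => ∀ z ∈ s, z ∈ C)).card = D.card + 2 * G := by
    clear_value D
    clear hsum hR hD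
    induction D using Finset.induction_on with
    | empty => exact ⟨0, by simp⟩
    | insert C D' hn ih =>
      obtain ⟨G, h1, h2⟩ := ih fun C' hC' => hL C' (mem_insert_of_mem hC')
      rw [sum_insert hn, card_insert_of_notMem hn, h2]
      rcases hL C (mem_insert_self _ _) with h | h
      · exact ⟨G, by omega, by omega⟩
      · exact ⟨G + 1, by omega, by omega⟩
  obtain ⟨G, h1, h2⟩ := hS
  have h5 : D.card + 2 * G = 20 := by
    rw [← h2, ← hsum]
  omega

/-! ### the configuration -/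

noncomputable def g : ℝ := 2 + Real.sqrt 5
noncomputable def x : ℝ := Real.sqrt g

theorem g_gt : 4 < g := by
  have : (2 : ℝ) < Real.sqrt 5 := by
    rw [Real.lt_sqrt (by norm_num)]
    norm_num
  unfold g
  linarith

theorem g_pos : 0 < g := by linarith [g_gt]

theorem g_sq : g ^ 2 = 4 * g + 1 := by
  have h : Real.sqrt 5 ^ 2 = 5 := Real.sq_sqrt (by norm_num)
  unfold g
  nlinarith

theorem x_pos : 0 < x := Real.sqrt_pos.2 g_pos

theorem x_sq : x ^ 2 = g := Real.sq_sqrt g_pos.le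

noncomputable def p1 : ℍ := mkP 0 g g_pos
noncomputable def p2 : ℍ := mkP (-2 * x) 1 one_pos
noncomputable def p3 : ℍ := mkP (2 * x) 1 one_pos
noncomputable def p4 : ℍ := mkP 0 1 one_pos
noncomputable def p5 : ℍ := mkP 0 (g ^ 2) (by have := g_pos; positivity)

noncomputable def Q5 : Finset ℍ := {p1, p2, p3, p4, p5}

/-- the horocycle with centre `ξ` and Euclidean diameter `k` -/
noncomputable def hk (ξ k : ℝ) : Set ℍ := horo ξ (k / 2)

theorem on_hk {ξ k a b : ℝ} (hb : 0 < b) : mkP a b hb ∈ hk ξ k ↔ (a - ξ) ^ 2 + b ^ 2 = k * b := by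
  unfold hk
  rw [on_horo, NearHorocycle.mk_re, NearHorocycle.mk_im]
  constructor <;> intro h <;> linarith

theorem is_hk {ξ k : ℝ} (hk0 : 0 < k) : IsHorocycle (hk ξ k) := Or.inl ⟨_, _, by positivity, rfl⟩

theorem hk_ne {ξ ξ' k k' : ℝ} (h1 : 0 < k) (h2 : 0 < k') (h : ξ ≠ ξ') : hk ξ k ≠ hk ξ' k' :=
  horo_ne (by positivity) (by positivity) h

noncomputable def T5 : Finset (Set ℍ) :=
  {horoInf 1, hk 0 (g ^ 2), hk (-x) (g + 1), hk x (g + 1), hk (-(g * x)) (g + g ^ 2),
    hk (g * x) (g + g ^ 2), hk (-g) (1 + g ^ 2), hk g (1 + g ^ 2)}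

theorem T5_card : T5.card ≤ 8 := by
  unfold T5
  exact (card_insert_le _ _).trans (Nat.succ_le_succ ((card_insert_le _ _).trans
    (Nat.succ_le_succ card_le_six)))

theorem Q5_card : Q5.card = 5 := by
  have hx := x_pos
  have hg := g_gt
  have hg2 := g_sq
  have h1 : Function.Injective (fun z : ℍ => (z.re, z.im)) := by
    intro z w h
    rw [Prod.mk.injEq] at h
    exact UpperHalfPlane.ext_re_im h.1 h.2
  have e : Q5.image (fun z : ℍ => (z.re, z.im)) =
      {((0 : ℝ), g), (-2 * x, 1), (2 * x, 1), (0, 1), (0, g ^ 2)} := by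
    unfold Q5
    simp only [image_insert, image_singleton]
    rfl
  rw [← card_image_of_injective _ h1, e]
  rw [card_insert_of_notMem, card_insert_of_notMem, card_insert_of_notMem, card_pair]
  · intro h
    rw [Prod.mk.injEq] at h
    nlinarith [h.2]
  · simp only [mem_insert, mem_singleton, Prod.mk.injEq, not_or, not_and]
    refine ⟨fun h => ?_, fun h => ?_⟩ <;> intro _ <;> linarith
  · simp only [mem_insert, mem_singleton, Prod.mk.injEq, not_or, not_and]
    refine ⟨fun h => ?_, fun h => ?_, fun h => ?_⟩ <;> intro _ <;> linarith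
  · simp only [mem_insert, mem_singleton, Prod.mk.injEq, not_or, not_and]
    refine ⟨fun h => ?_, fun h => ?_, fun h => ?_, fun h => ?_⟩ <;> intro _ <;> nlinarith

/-- both horocycles through two of the points are in `T5` -/
def Cov (p q : ℍ) : Prop := ∃ A ∈ T5, ∃ B ∈ T5, A ≠ B ∧ IsHorocycle A ∧ IsHorocycle B ∧
  p ∈ A ∧ q ∈ A ∧ p ∈ B ∧ q ∈ B

theorem Cov.symm {p q : ℍ} (h : Cov p q) : Cov q p := by
  obtain ⟨A, hA, B, hB, h1, h2, h3, h4, h5, h6, h7⟩ := h
  exact ⟨A, hA, B, hB, h1, h2, h3, h5, h4, h7, h6⟩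

section
theorem k2 : (0 : ℝ) < g ^ 2 := by have := g_pos; positivity
theorem k3 : (0 : ℝ) < g + 1 := by have := g_pos; positivity
theorem k5 : (0 : ℝ) < g + g ^ 2 := by have := g_pos; positivity
theorem k7 : (0 : ℝ) < 1 + g ^ 2 := by have := g_pos; positivity

theorem t1 : horoInf 1 ∈ T5 := by unfold T5; simp
theorem t2 : hk 0 (g ^ 2) ∈ T5 := by unfold T5; simp
theorem t3 : hk (-x) (g + 1) ∈ T5 := by unfold T5; simp
theorem t4 : hk x (g + 1) ∈ T5 := by unfold T5; simp
theorem t5 : hk (-(g * x)) (g + g ^ 2) ∈ T5 := by unfold T5; simp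
theorem t6 : hk (g * x) (g + g ^ 2) ∈ T5 := by unfold T5; simp
theorem t7 : hk (-g) (1 + g ^ 2) ∈ T5 := by unfold T5; simp
theorem t8 : hk g (1 + g ^ 2) ∈ T5 := by unfold T5; simp

theorem a21 : p2 ∈ horoInf 1 := rfl
theorem a31 : p3 ∈ horoInf 1 := rfl
theorem a41 : p4 ∈ horoInf 1 := rfl
theorem a22 : p2 ∈ hk 0 (g ^ 2) := by
  unfold p2; rw [on_hk]; nlinarith [x_sq, g_sq]
theorem a32 : p3 ∈ hk 0 (g ^ 2) := by
  unfold p3; rw [on_hk]; nlinarith [x_sq, g_sq]
theorem a52 : p5 ∈ hk 0 (g ^ 2) := by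
  unfold p5; rw [on_hk]; ring
theorem a23 : p2 ∈ hk (-x) (g + 1) := by
  unfold p2; rw [on_hk]; nlinarith [x_sq, g_sq]
theorem a43 : p4 ∈ hk (-x) (g + 1) := by
  unfold p4; rw [on_hk]; nlinarith [x_sq, g_sq]
theorem a13 : p1 ∈ hk (-x) (g + 1) := by
  unfold p1; rw [on_hk]; nlinarith [x_sq, g_sq]
theorem a34 : p3 ∈ hk x (g + 1) := by
  unfold p3; rw [on_hk]; nlinarith [x_sq, g_sq]
theorem a44 : p4 ∈ hk x (g + 1) := by
  unfold p4; rw [on_hk]; nlinarith [x_sq, g_sq]
theorem a14 : p1 ∈ hk x (g + 1) := by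
  unfold p1; rw [on_hk]; nlinarith [x_sq, g_sq]
theorem a15 : p1 ∈ hk (-(g * x)) (g + g ^ 2) := by
  unfold p1; rw [on_hk]; linear_combination g ^ 2 * x_sq
theorem a55 : p5 ∈ hk (-(g * x)) (g + g ^ 2) := by
  unfold p5; rw [on_hk]; linear_combination g ^ 2 * x_sq
theorem a25 : p2 ∈ hk (-(g * x)) (g + g ^ 2) := by
  unfold p2; rw [on_hk]
  linear_combination (g - 2) ^ 2 * x_sq + (g - 1) * g_sq
theorem a16 : p1 ∈ hk (g * x) (g + g ^ 2) := by
  unfold p1; rw [on_hk]; linear_combination g ^ 2 * x_sq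
theorem a56 : p5 ∈ hk (g * x) (g + g ^ 2) := by
  unfold p5; rw [on_hk]; linear_combination g ^ 2 * x_sq
theorem a36 : p3 ∈ hk (g * x) (g + g ^ 2) := by
  unfold p3; rw [on_hk]
  linear_combination (g - 2) ^ 2 * x_sq + (g - 1) * g_sq
theorem a47 : p4 ∈ hk (-g) (1 + g ^ 2) := by
  unfold p4; rw [on_hk]; ring
theorem a57 : p5 ∈ hk (-g) (1 + g ^ 2) := by
  unfold p5; rw [on_hk]; ring
theorem a48 : p4 ∈ hk g (1 + g ^ 2) := by
  unfold p4; rw [on_hk]; ring
theorem a58 : p5 ∈ hk g (1 + g ^ 2) := by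
  unfold p5; rw [on_hk]; ring

theorem i1 : IsHorocycle (horoInf 1) := Or.inr ⟨1, one_pos, rfl⟩

theorem n1 {ξ k : ℝ} (h : 0 < k) : horoInf 1 ≠ hk ξ k :=
  (horo_ne_inf _ _ _ (by positivity) one_pos).symm

theorem c12 : Cov p1 p2 := ⟨_, t3, _, t5, hk_ne k3 k5 (by nlinarith [x_pos, g_gt]), is_hk k3, is_hk k5,
  a13, a23, a15, a25⟩
theorem c13 : Cov p1 p3 := ⟨_, t4, _, t6, hk_ne k3 k5 (by nlinarith [x_pos, g_gt]), is_hk k3, is_hk k5,
  a14, a34, a16, a36⟩
theorem c14 : Cov p1 p4 := ⟨_, t3, _, t4, hk_ne k3 k3 (by linarith [x_pos]), is_hk k3, is_hk k3,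
  a13, a43, a14, a44⟩
theorem c15 : Cov p1 p5 := ⟨_, t5, _, t6, hk_ne k5 k5 (by
  have := mul_pos g_pos x_pos; intro h; linarith), is_hk k5, is_hk k5, a15, a55, a16, a56⟩
theorem c23 : Cov p2 p3 := ⟨_, t1, _, t2, n1 k2, i1, is_hk k2, a21, a31, a22, a32⟩
theorem c24 : Cov p2 p4 := ⟨_, t1, _, t3, n1 k3, i1, is_hk k3, a21, a41, a23, a43⟩
theorem c25 : Cov p2 p5 := ⟨_, t2, _, t5, hk_ne k2 k5 (by
  have := mul_pos g_pos x_pos; intro h; linarith), is_hk k2, is_hk k5, a22, a52, a25, a55⟩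
theorem c34 : Cov p3 p4 := ⟨_, t1, _, t4, n1 k3, i1, is_hk k3, a31, a41, a34, a44⟩
theorem c35 : Cov p3 p5 := ⟨_, t2, _, t6, hk_ne k2 k5 (by
  have := mul_pos g_pos x_pos; intro h; linarith), is_hk k2, is_hk k5, a32, a52, a36, a56⟩
theorem c45 : Cov p4 p5 := ⟨_, t7, _, t8, hk_ne k7 k7 (by
  have := g_pos; intro h; linarith), is_hk k7, is_hk k7, a47, a57, a48, a58⟩
end

theorem cov (p q : ℍ) (hp : p ∈ Q5) (hq : q ∈ Q5) (hpq : p ≠ q) : Cov p q := by
  unfold Q5 at hp hq
  simp only [mem_insert, mem_singleton] at hp hq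
  rcases hp with rfl | rfl | rfl | rfl | rfl <;> rcases hq with rfl | rfl | rfl | rfl | rfl <;>
    first
      | exact absurd rfl hpq
      | exact c12 | exact c13 | exact c14 | exact c15 | exact c23 | exact c24 | exact c25
      | exact c34 | exact c35 | exact c45
      | exact c12.symm | exact c13.symm | exact c14.symm | exact c15.symm | exact c23.symm
      | exact c24.symm | exact c25.symm | exact c34.symm | exact c35.symm | exact c45.symm

theorem up5 : (determined Q5).ncard ≤ 8 := by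
  have h : determined Q5 ⊆ (T5 : Set (Set ℍ)) := by
    rintro C ⟨hC, p, hp, q, hq, hpq, hpC, hqC⟩
    rw [mem_coe]
    obtain ⟨A, hA, B, hB, h1, h2, h3, h4, h5, h6, h7⟩ := cov p q hp hq hpq
    rcases two_of hpq h1 h2 h3 h4 h5 h6 h7 hC hpC hqC with rfl | rfl
    · exact hA
    · exact hB
  refine (Set.ncard_le_ncard h T5.finite_toSet).trans ?_
  rw [Set.ncard_coe_finset]
  exact T5_card

theorem m5 : m 5 = 8 := by
  have h0 : m 5 ≤ (determined Q5).ncard := Nat.sInf_le ⟨Q5, Q5_card, det_fin Q5, rfl⟩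
  refine le_antisymm (h0.trans up5) (le_m ⟨Q5, Q5_card⟩ fun P hP => ?_)
  by_cases h3 : ∃ C, IsHorocycle C ∧ 4 ≤ (P.filter (fun z => z ∈ C)).card
  · obtain ⟨C, hC, hc⟩ := h3
    have h1 := lower (by norm_num) P hP C hC (by omega)
    norm_num [Nat.choose] at h1
    omega
  · push Not at h3
    exact low5 P hP fun C hC => by have := h3 C hC; omega

/-- The least numbers of horocycles determined by three, four and five points are `4`, `6` and `8`. -/
theorem result : m 3 = 4 ∧ m 4 = 6 ∧ m 5 = 8 := ⟨m3, m4, m5⟩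

end Pool.Agent.Results.MP_d7f0d3_co.SmallValues
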